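import Pool.Agent.Lib.MP_fa837f_gt.P2.H82.E2

/-!
Project P2, row E1.
-/

set_option autoImplicit false

open MeasureTheory Matrix Set Filter Topology

namespace Pool.Agent.Lib.MP_fa837f_gt.P2.H82

variable {n k : ℕ}

/-- The functions to which the rule is applied. -/
noncomputable def ph1 (S : Sys n k) (τ : Fin n → ℝ) (j : Fin n) (c : Fin 3) (y : Pt k) : ℝ :=
  ∑ i, ((S.r y i * al S.m τ (S.r y) i i) * (al S.m τ (S.r y) i j * S.r y j)) *
    (Yv S.m y i c * (S.L y i)⁻¹)

theorem ph1_tame (hTm : TmStatement) (S : Sys n k) (τ : Fin n → ℝ) (hT : TFacts S τ)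
    (j : Fin n) (c : Fin 3) : Tame (ph1 S τ j c) := by
  obtain ⟨-, hmul, -, -, -, hsum⟩ := hTm k
  exact hsum _ _ fun i => hmul _ _ (hmul _ _ (hmul _ _ (hT.tr i) (hT.tal i i))
    (hmul _ _ (hT.tal i j) (hT.tr j))) (hmul _ _ (hT.tY i c) (hT.tLi i))

/-- The term of the derivative, with abstract data. -/
noncomputable def tm1 (δ : ℝ) (β α : Fin n → Fin n → ℝ) (r L : Fin n → ℝ) (Y : Fin n → Fin 3 → ℝ)
    (i j : Fin n) (c : Fin 3) : ℝ :=
  ((r i * α i i) * (α i j * r j)) * (Y i c * (-(2 * (β i j * Y i c)) / L i ^ 2) +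
      (L i)⁻¹ * β i j) +
    (Y i c * (L i)⁻¹) *
      ((r i * α i i) * (α i j * (r j * (2 * δ / L j * (β j j * Y j c))) +
          r j * -∑ l, (α i l * β l j + β i l * α l j) *
            (r l * (2 * δ / L l * (β l j * Y l c)))) +
        (α i j * r j) * (r i * -(∑ l, (α i l * β l i + β i l * α l i) *
            (r l * (2 * δ / L l * (β l j * Y l c)))) +
          α i i * (r i * (2 * δ / L i * (β i j * Y i c)))))

theorem D_ph1 (S : Sys n k) (τ : Fin n → ℝ) (hL : LFacts S) (hR : RFacts S τ) (j : Fin n)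
    (c : Fin 3) (y : Pt k) :
    S.D j c (ph1 S τ j c) y = ∑ i, tm1 S.δ (be S.m (S.r y)) (al S.m τ (S.r y)) (S.r y) (S.L y)
      (Yv S.m y) i j c := by
  have dY : ∀ i, DifferentiableAt ℝ (fun z => Yv S.m z i c) y := fun i =>
    ((hL.sY i c).differentiable (by simp)).differentiableAt
  have dLi : ∀ i, DifferentiableAt ℝ (fun z => (S.L z i)⁻¹) y := fun i =>
    (diffL S hL i y).inv (hL.Lpos y i).ne'
  have dr : ∀ i, DifferentiableAt ℝ (fun z => S.r z i) y := fun i =>
    ((hL.sr i).differentiable (by simp)).differentiableAt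
  have da : ∀ i l, DifferentiableAt ℝ (fun z => al S.m τ (S.r z) i l) y := fun i l =>
    ((hR.sal i l).differentiable (by simp)).differentiableAt
  have d1 : ∀ i, DifferentiableAt ℝ (fun z => S.r z i * al S.m τ (S.r z) i i) y := fun i =>
    (dr i).mul (da i i)
  have d2 : ∀ i, DifferentiableAt ℝ (fun z => al S.m τ (S.r z) i j * S.r z j) y := fun i =>
    (da i j).mul (dr j)
  have d3 : ∀ i, DifferentiableAt ℝ (fun z => (S.r z i * al S.m τ (S.r z) i i) *
      (al S.m τ (S.r z) i j * S.r z j)) y := fun i => (d1 i).mul (d2 i)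
  have d4 : ∀ i, DifferentiableAt ℝ (fun z => Yv S.m z i c * (S.L z i)⁻¹) y := fun i =>
    (dY i).mul (dLi i)
  have h0 : S.D j c (ph1 S τ j c) y = ∑ i, S.D j c (fun z =>
      ((S.r z i * al S.m τ (S.r z) i i) * (al S.m τ (S.r z) i j * S.r z j)) *
        (Yv S.m z i c * (S.L z i)⁻¹)) y :=
    D_sum S j c (fun i z => ((S.r z i * al S.m τ (S.r z) i i) *
      (al S.m τ (S.r z) i j * S.r z j)) * (Yv S.m z i c * (S.L z i)⁻¹)) y
      fun i => (d3 i).mul (d4 i)
  rw [h0]
  refine Finset.sum_congr rfl fun i _ => ?_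
  rw [D_mul S j c _ _ y (d3 i) (d4 i), D_mul S j c _ _ y (dY i) (dLi i),
    D_mul S j c _ _ y (d1 i) (d2 i), D_mul S j c _ _ y (da i j) (dr j),
    D_mul S j c _ _ y (dr i) (da i i), D_Linv S hL hR, D_Y S hL hR, D_r S hL hR, D_r S hL hR,
    D_al S hR, D_al S hR]
  rfl

/-- The algebra: sum over `c`. -/
theorem alg1 (δ : ℝ) (β α : Fin n → Fin n → ℝ) (r L : Fin n → ℝ) (Y : Fin n → Fin 3 → ℝ)
    (hL : ∀ i, L i ≠ 0) (i j : Fin n) :
    ∑ c, tm1 δ β α r L Y i j c =
      r i * α i i * (α i j * r j * β i j) * (3 / L i - 2 * (∑ c, Y i c * Y i c) / L i ^ 2 +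
        2 * δ * (∑ c, Y i c * Y i c) / L i ^ 2) +
      2 * δ * (r i * r j * α i i * α i j * β j j * (∑ c, Y i c * Y j c) / (L i * L j)) -
      ∑ l, 2 * δ * ((∑ c, Y i c * Y l c) / (L i * L l)) * (r i * r l) *
        (α i i * α i l * (β l j * r j * β l j) + α i i * β i l * (α l j * r j * β l j) +
          α i l * β l i * (α i j * r j * β l j) + β i l * α l i * (α i j * r j * β l j)) := by
  have e : ∀ c, tm1 δ β α r L Y i j c =
      (r i * α i i * (α i j * r j * β i j) * (-2 / L i ^ 2 + 2 * δ / L i ^ 2)) * (Y i c * Y i c) +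
      r i * α i i * (α i j * r j * β i j) / L i +
      (2 * δ * (r i * r j * α i i * α i j * β j j / (L i * L j))) * (Y i c * Y j c) -
      ∑ l, (2 * δ / (L i * L l) * (r i * r l) *
        (α i i * α i l * (β l j * r j * β l j) + α i i * β i l * (α l j * r j * β l j) +
          α i l * β l i * (α i j * r j * β l j) + β i l * α l i * (α i j * r j * β l j))) *
        (Y i c * Y l c) := by
    intro c
    have e1 : (Y i c * (L i)⁻¹) * ((r i * α i i) * (r j * -∑ l, (α i l * β l j + β i l * α l j) *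
            (r l * (2 * δ / L l * (β l j * Y l c)))) +
        (α i j * r j) * (r i * -∑ l, (α i l * β l i + β i l * α l i) *
            (r l * (2 * δ / L l * (β l j * Y l c))))) =
        -∑ l, (2 * δ / (L i * L l) * (r i * r l) *
        (α i i * α i l * (β l j * r j * β l j) + α i i * β i l * (α l j * r j * β l j) +
          α i l * β l i * (α i j * r j * β l j) + β i l * α l i * (α i j * r j * β l j))) *
        (Y i c * Y l c) := by
      rw [mul_neg, mul_neg, mul_neg, mul_neg, ← neg_add, mul_neg, Finset.mul_sum, Finset.mul_sum,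
        Finset.mul_sum, Finset.mul_sum, ← Finset.sum_add_distrib, Finset.mul_sum]
      congr 1
      refine Finset.sum_congr rfl fun l _ => ?_
      have h1 := hL i
      have h2 := hL l
      field_simp
      ring
    have e2 : tm1 δ β α r L Y i j c =
        (((r i * α i i) * (α i j * r j)) * (Y i c * (-(2 * (β i j * Y i c)) / L i ^ 2) +
          (L i)⁻¹ * β i j) + (Y i c * (L i)⁻¹) * ((r i * α i i) * (α i j * (r j *
            (2 * δ / L j * (β j j * Y j c)))) + (α i j * r j) *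
              (α i i * (r i * (2 * δ / L i * (β i j * Y i c)))))) +
        (Y i c * (L i)⁻¹) * ((r i * α i i) * (r j * -∑ l, (α i l * β l j + β i l * α l j) *
            (r l * (2 * δ / L l * (β l j * Y l c)))) +
        (α i j * r j) * (r i * -∑ l, (α i l * β l i + β i l * α l i) *
            (r l * (2 * δ / L l * (β l j * Y l c))))) := by
      unfold tm1
      ring
    rw [e2, e1, ← sub_eq_add_neg]
    congr 1
    have h1 := hL i
    have h2 := hL j
    field_simp
    ring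
  simp_rw [e]
  rw [Finset.sum_sub_distrib, Finset.sum_add_distrib, Finset.sum_add_distrib, ← Finset.mul_sum,
    ← Finset.mul_sum, Finset.sum_comm]
  simp only [Finset.sum_const, Finset.card_univ, Fintype.card_fin, nsmul_eq_mul]
  congr 1
  · push_cast
    have h1 := hL i
    have h2 := hL j
    field_simp
    ring
  · refine Finset.sum_congr rfl fun l _ => ?_
    rw [← Finset.mul_sum]
    have h1 := hL i
    have h2 := hL l
    field_simp

/-- The algebra: sum over `j`, `c`. -/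
theorem alg2 (δ : ℝ) (β α : Fin n → Fin n → ℝ) (r L : Fin n → ℝ) (Y : Fin n → Fin 3 → ℝ)
    (hL : ∀ i, L i ≠ 0) (hs : ∀ i l, β i l = β l i)
    (ha : ∀ i l, ∑ j, α i j * r j * β j l = α i l)
    (hp : ∀ i l, ∑ j, β i j * r j * β j l = β i l) :
    ∑ j, ∑ c, ∑ i, tm1 δ β α r L Y i j c =
      ∑ i, r i * α i i ^ 2 / L i * (3 - 2 * ((∑ c, Y i c * Y i c) / L i) +
        2 * δ * ((∑ c, Y i c * Y i c) / L i)) -
      2 * δ * ∑ i, ∑ l, β i l * (∑ c, Y i c * Y l c) / (L i * L l) * (r i * r l) *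
        (α i i * α l l + α i l ^ 2 + α i l * α l i) := by
  have ha' : ∀ i l, ∑ j, α i j * r j * β l j = α i l := by
    intro i l
    rw [← ha i l]
    exact Finset.sum_congr rfl fun j _ => by rw [hs l j]
  have hp' : ∀ l, ∑ j, β l j * r j * β l j = β l l := by
    intro l
    rw [← hp l l]
    exact Finset.sum_congr rfl fun j _ => by rw [hs j l]
  have e0 : ∑ j, ∑ c, ∑ i, tm1 δ β α r L Y i j c = ∑ i, ∑ j, ∑ c, tm1 δ β α r L Y i j c := by
    calc _ = ∑ j, ∑ i, ∑ c, tm1 δ β α r L Y i j c :=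
          Finset.sum_congr rfl fun j _ => Finset.sum_comm
      _ = _ := Finset.sum_comm
  rw [e0, Finset.mul_sum, ← Finset.sum_sub_distrib]
  refine Finset.sum_congr rfl fun i _ => ?_
  rw [Finset.sum_congr rfl fun j _ => alg1 δ β α r L Y hL i j, Finset.sum_sub_distrib,
    Finset.sum_add_distrib]
  have s1 : ∑ j, r i * α i i * (α i j * r j * β i j) * (3 / L i -
      2 * (∑ c, Y i c * Y i c) / L i ^ 2 + 2 * δ * (∑ c, Y i c * Y i c) / L i ^ 2) =
      r i * α i i * α i i * (3 / L i -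
      2 * (∑ c, Y i c * Y i c) / L i ^ 2 + 2 * δ * (∑ c, Y i c * Y i c) / L i ^ 2) := by
    rw [← Finset.sum_mul, ← Finset.mul_sum, ha']
  have s2 : ∑ j, ∑ l, 2 * δ * ((∑ c, Y i c * Y l c) / (L i * L l)) * (r i * r l) *
        (α i i * α i l * (β l j * r j * β l j) + α i i * β i l * (α l j * r j * β l j) +
          α i l * β l i * (α i j * r j * β l j) + β i l * α l i * (α i j * r j * β l j)) =
      ∑ l, 2 * δ * ((∑ c, Y i c * Y l c) / (L i * L l)) * (r i * r l) *
        (α i i * α i l * β l l + α i i * β i l * α l l +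
          α i l * β l i * α i l + β i l * α l i * α i l) := by
    rw [Finset.sum_comm]
    refine Finset.sum_congr rfl fun l _ => ?_
    rw [← Finset.mul_sum, Finset.sum_add_distrib, Finset.sum_add_distrib, Finset.sum_add_distrib,
      ← Finset.mul_sum, ← Finset.mul_sum, ← Finset.mul_sum, ← Finset.mul_sum, ha' l l, ha' i l,
      hp' l]
  have s3 : ∑ j, 2 * δ * (r i * r j * α i i * α i j * β j j * (∑ c, Y i c * Y j c) / (L i * L j)) -
      ∑ l, 2 * δ * ((∑ c, Y i c * Y l c) / (L i * L l)) * (r i * r l) *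
        (α i i * α i l * β l l + α i i * β i l * α l l +
          α i l * β l i * α i l + β i l * α l i * α i l) =
      -(2 * δ * ∑ l, β i l * (∑ c, Y i c * Y l c) / (L i * L l) * (r i * r l) *
        (α i i * α l l + α i l ^ 2 + α i l * α l i)) := by
    rw [Finset.mul_sum, ← Finset.sum_neg_distrib, ← Finset.sum_sub_distrib]
    refine Finset.sum_congr rfl fun l _ => ?_
    rw [hs l i]
    ring
  rw [s1, s2, add_sub_assoc, s3, ← sub_eq_add_neg]
  congr 1
  have h1 := hL i
  field_simp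

/-- The pointwise inequality. -/
theorem pt1 (S : Sys n k) (τ : Fin n → ℝ) (hL : LFacts S) (hR : RFacts S τ) (hWs : WsStatement)
    (hB : ∀ y, BFacts S.m (S.r y)) (hA : ∀ y, AFacts S.m τ (S.r y)) (y : Pt k) :
    2 * S.Yd τ y ≤ (-(S.δ * S.X1d τ y) + S.δ ^ 2 * S.Sd τ y) +
      S.δ * ∑ j, ∑ c, (S.D j c (ph1 S τ j c) y - 2 * (Yv S.m y j c * ph1 S τ j c y)) := by
  have hδ := S.hδ0
  have hLne : ∀ i, S.L y i ≠ 0 := fun i => (hL.Lpos y i).ne'
  have hl : ∀ i, 0 ≤ Gm S.m y i i / S.L y i ∧ Gm S.m y i i / S.L y i ≤ 1 := by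
    intro i
    have hLp := hL.Lpos y i
    have h0 : 0 ≤ Gm S.m y i i := by
      unfold Gm
      exact Finset.sum_nonneg fun c _ => mul_self_nonneg _
    refine ⟨div_nonneg h0 hLp.le, ?_⟩
    rw [div_le_one hLp]
    have := S.he i
    unfold Sys.L
    linarith
  -- the sum of the products
  have hYd : S.δ * ∑ j, ∑ c, 2 * (Yv S.m y j c * ph1 S τ j c y) = -(2 * S.Yd τ y) := by
    unfold ph1 Sys.Yd
    have e : ∀ i j, S.r y i * al S.m τ (S.r y) i i * (al S.m τ (S.r y) i j * S.r y j *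
        Gm S.m y j i) / S.L y i = ∑ c, Yv S.m y j c * (((S.r y i * al S.m τ (S.r y) i i) *
          (al S.m τ (S.r y) i j * S.r y j)) * (Yv S.m y i c * (S.L y i)⁻¹)) := by
      intro i j
      unfold Gm
      rw [Finset.mul_sum, Finset.mul_sum, Finset.sum_div]
      refine Finset.sum_congr rfl fun c _ => ?_
      have := hLne i
      field_simp
    have e1 : ∑ i, S.r y i * al S.m τ (S.r y) i i *
      (∑ j, al S.m τ (S.r y) i j * S.r y j * Gm S.m y j i) / S.L y i =
      ∑ j, ∑ c, Yv S.m y j c * ∑ i, ((S.r y i * al S.m τ (S.r y) i i) *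
          (al S.m τ (S.r y) i j * S.r y j)) * (Yv S.m y i c * (S.L y i)⁻¹) := by
      calc _ = ∑ i, ∑ j, ∑ c, Yv S.m y j c * (((S.r y i * al S.m τ (S.r y) i i) *
          (al S.m τ (S.r y) i j * S.r y j)) * (Yv S.m y i c * (S.L y i)⁻¹)) := by
            refine Finset.sum_congr rfl fun i _ => ?_
            rw [Finset.mul_sum, Finset.sum_div]
            exact Finset.sum_congr rfl fun j _ => e i j
        _ = ∑ j, ∑ i, ∑ c, Yv S.m y j c * (((S.r y i * al S.m τ (S.r y) i i) *
          (al S.m τ (S.r y) i j * S.r y j)) * (Yv S.m y i c * (S.L y i)⁻¹)) := Finset.sum_comm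
        _ = ∑ j, ∑ c, ∑ i, Yv S.m y j c * (((S.r y i * al S.m τ (S.r y) i i) *
          (al S.m τ (S.r y) i j * S.r y j)) * (Yv S.m y i c * (S.L y i)⁻¹)) :=
            Finset.sum_congr rfl fun j _ => Finset.sum_comm
        _ = _ := by
            refine Finset.sum_congr rfl fun j _ => Finset.sum_congr rfl fun c _ => ?_
            rw [Finset.mul_sum]
    rw [e1, neg_mul_eq_mul_neg, ← neg_neg (S.δ * _)]
    simp_rw [← Finset.mul_sum]
    ring
  -- the sum of the derivatives
  have hD : ∑ j, ∑ c, S.D j c (ph1 S τ j c) y =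
      ∑ i, S.r y i * al S.m τ (S.r y) i i ^ 2 / S.L y i * (3 - 2 * (Gm S.m y i i / S.L y i) +
        2 * S.δ * (Gm S.m y i i / S.L y i)) -
      2 * S.δ * ∑ i, ∑ l, ww S y i l * (S.r y i * S.r y l) *
        (al S.m τ (S.r y) i i * al S.m τ (S.r y) l l + al S.m τ (S.r y) i l ^ 2 +
          al S.m τ (S.r y) i l * al S.m τ (S.r y) l i) := by
    have h := alg2 S.δ (be S.m (S.r y)) (al S.m τ (S.r y)) (S.r y) (S.L y) (Yv S.m y) hLne
      (hB y).symm (hA y).alr (hB y).proj
    exact (Finset.sum_congr rfl fun j _ => Finset.sum_congr rfl fun c _ =>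
      D_ph1 S τ hL hR j c y).trans h
  -- symmetry
  have gsym : ∀ i l, Gm S.m y i l = Gm S.m y l i := by
    intro i l
    unfold Gm
    exact Finset.sum_congr rfl fun c _ => mul_comm _ _
  have wsym : ∀ i l, ww S y i l = ww S y l i := by
    intro i l
    unfold ww
    rw [(hB y).symm i l, mul_comm (S.L y i) (S.L y l), gsym]
  -- (i)
  have hi : ∑ i, ∑ l, ww S y i l * (S.r y i * S.r y l) *
      (al S.m τ (S.r y) i i * al S.m τ (S.r y) l l) ≤
      ∑ i, S.r y i * al S.m τ (S.r y) i i ^ 2 / S.L y i * (Gm S.m y i i / S.L y i) := by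
    have hw := (hWs n k S.m (S.r y) S.hm (hL.rpos y) (Fin 3)
      (fun i c => S.r y i * al S.m τ (S.r y) i i / S.L y i * Yv S.m y i c)).2.1
    have dp : ∀ i l, (fun c => S.r y i * al S.m τ (S.r y) i i / S.L y i * Yv S.m y i c) ⬝ᵥ
        (fun c => S.r y l * al S.m τ (S.r y) l l / S.L y l * Yv S.m y l c) =
        S.r y i * al S.m τ (S.r y) i i / S.L y i * (S.r y l * al S.m τ (S.r y) l l / S.L y l) *
          Gm S.m y i l := by
      intro i l
      unfold Gm
      simp only [dotProduct]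
      rw [Finset.mul_sum]
      refine Finset.sum_congr rfl fun c _ => ?_
      ring
    simp only [dp] at hw
    calc _ = ∑ i, ∑ l, be S.m (S.r y) i l *
          (S.r y i * al S.m τ (S.r y) i i / S.L y i * (S.r y l * al S.m τ (S.r y) l l / S.L y l) *
          Gm S.m y i l) := by
          refine Finset.sum_congr rfl fun i _ => Finset.sum_congr rfl fun l _ => ?_
          have hLi := hLne i
          have hLl := hLne l
          unfold ww
          field_simp
      _ ≤ _ := hw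
      _ = _ := by
          refine Finset.sum_congr rfl fun i _ => ?_
          have hLi := hLne i
          have hri := (hL.rpos y i).ne'
          field_simp
  -- (ii)
  have hwb : ∀ i l, ww S y i l ≤ 1 / 2 * (be S.m (S.r y) i i / S.L y i +
      be S.m (S.r y) l l / S.L y l) := by
    intro i l
    have hLi := hL.Lpos y i
    have hLl := hL.Lpos y l
    have bi := (hB y).nonneg i
    have bl := (hB y).nonneg l
    -- the Cauchy-Schwarz inequality for the points
    have hg : Gm S.m y i l ^ 2 ≤ S.L y i * S.L y l := by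
      have h1 : Gm S.m y i l ^ 2 ≤ Gm S.m y i i * Gm S.m y l l := by
        have := Finset.sum_mul_sq_le_sq_mul_sq Finset.univ (fun c => Yv S.m y i c)
          (fun c => Yv S.m y l c)
        simp only [sq] at this ⊢
        exact this
      have g1 : Gm S.m y i i ≤ S.L y i := (div_le_one hLi).1 (hl i).2
      have g2 : Gm S.m y l l ≤ S.L y l := (div_le_one hLl).1 (hl l).2
      have g3 : 0 ≤ Gm S.m y l l := by
        unfold Gm
        exact Finset.sum_nonneg fun c _ => mul_self_nonneg _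
      exact h1.trans (mul_le_mul g1 g2 g3 hLi.le)
    have hb := (hB y).cs i l
    -- `w² ≤ (β_ii / L_i) (β_ll / L_l)`
    have h2 : ww S y i l ^ 2 ≤ (be S.m (S.r y) i i / S.L y i) * (be S.m (S.r y) l l / S.L y l) := by
      unfold ww
      rw [div_pow, mul_pow, div_mul_div_comm, div_le_div_iff₀ (by positivity) (by positivity)]
      have h3 : be S.m (S.r y) i l ^ 2 * Gm S.m y i l ^ 2 ≤
          (be S.m (S.r y) i i * be S.m (S.r y) l l) * (S.L y i * S.L y l) :=
        mul_le_mul hb hg (sq_nonneg _) (mul_nonneg bi bl)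
      calc _ ≤ (be S.m (S.r y) i i * be S.m (S.r y) l l) * (S.L y i * S.L y l) *
            (S.L y i * S.L y l) := mul_le_mul_of_nonneg_right h3 (by positivity)
        _ = _ := by ring
    have a1 : 0 ≤ be S.m (S.r y) i i / S.L y i := div_nonneg bi hLi.le
    have a2 : 0 ≤ be S.m (S.r y) l l / S.L y l := div_nonneg bl hLl.le
    have h4 : ww S y i l ^ 2 ≤ (1 / 2 * (be S.m (S.r y) i i / S.L y i +
      be S.m (S.r y) l l / S.L y l)) ^ 2 := by
      nlinarith [sq_nonneg (be S.m (S.r y) i i / S.L y i - be S.m (S.r y) l l / S.L y l)]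
    exact le_of_sq_le_sq h4 (by positivity) |>.trans' (le_refl _)
  have hii : ∑ i, ∑ l, ww S y i l * (S.r y i * S.r y l) *
      (al S.m τ (S.r y) i l ^ 2 + al S.m τ (S.r y) i l * al S.m τ (S.r y) l i) ≤
      1 / 2 * S.Sd τ y := by
    have e1 : ∑ i, ∑ l, ww S y i l * (S.r y i * S.r y l) *
      (al S.m τ (S.r y) i l ^ 2 + al S.m τ (S.r y) i l * al S.m τ (S.r y) l i) =
      ∑ i, ∑ l, 1 / 2 * (ww S y i l * (S.r y i * S.r y l *
        (al S.m τ (S.r y) i l + al S.m τ (S.r y) l i) ^ 2)) := by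
      have e2 : ∑ i, ∑ l, ww S y i l * (S.r y i * S.r y l) * al S.m τ (S.r y) i l ^ 2 =
          ∑ i, ∑ l, ww S y i l * (S.r y i * S.r y l) * al S.m τ (S.r y) l i ^ 2 := by
        rw [Finset.sum_comm]
        refine Finset.sum_congr rfl fun i _ => Finset.sum_congr rfl fun l _ => ?_
        rw [wsym l i, mul_comm (S.r y l)]
      have e3 : ∑ i, ∑ l, 1 / 2 * (ww S y i l * (S.r y i * S.r y l *
        (al S.m τ (S.r y) i l + al S.m τ (S.r y) l i) ^ 2)) =
        1 / 2 * (∑ i, ∑ l, ww S y i l * (S.r y i * S.r y l) * al S.m τ (S.r y) i l ^ 2) +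
        1 / 2 * (∑ i, ∑ l, ww S y i l * (S.r y i * S.r y l) * al S.m τ (S.r y) l i ^ 2) +
        ∑ i, ∑ l, ww S y i l * (S.r y i * S.r y l) *
          (al S.m τ (S.r y) i l * al S.m τ (S.r y) l i) := by
        simp_rw [Finset.mul_sum, ← Finset.sum_add_distrib]
        refine Finset.sum_congr rfl fun i _ => Finset.sum_congr rfl fun l _ => ?_
        ring
      rw [e3, ← e2]
      have e4 : ∑ i, ∑ l, ww S y i l * (S.r y i * S.r y l) *
        (al S.m τ (S.r y) i l ^ 2 + al S.m τ (S.r y) i l * al S.m τ (S.r y) l i) =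
        (∑ i, ∑ l, ww S y i l * (S.r y i * S.r y l) * al S.m τ (S.r y) i l ^ 2) +
        ∑ i, ∑ l, ww S y i l * (S.r y i * S.r y l) *
          (al S.m τ (S.r y) i l * al S.m τ (S.r y) l i) := by
        simp_rw [← Finset.sum_add_distrib]
        refine Finset.sum_congr rfl fun i _ => Finset.sum_congr rfl fun l _ => ?_
        ring
      rw [e4]
      ring
    rw [e1]
    have e5 : ∑ i, ∑ l, 1 / 2 * (ww S y i l * (S.r y i * S.r y l *
        (al S.m τ (S.r y) i l + al S.m τ (S.r y) l i) ^ 2)) ≤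
        ∑ i, ∑ l, 1 / 2 * (1 / 2 * (be S.m (S.r y) i i / S.L y i +
          be S.m (S.r y) l l / S.L y l) * (S.r y i * S.r y l *
        (al S.m τ (S.r y) i l + al S.m τ (S.r y) l i) ^ 2)) := by
      refine Finset.sum_le_sum fun i _ => Finset.sum_le_sum fun l _ => ?_
      refine mul_le_mul_of_nonneg_left (mul_le_mul_of_nonneg_right (hwb i l) ?_) (by norm_num)
      exact mul_nonneg (mul_nonneg (hL.rpos y i).le (hL.rpos y l).le) (sq_nonneg _)
    refine e5.trans (le_of_eq ?_)
    have e6 : ∀ i, ∑ l, be S.m (S.r y) i i / S.L y i * (S.r y i * S.r y l *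
        (al S.m τ (S.r y) i l + al S.m τ (S.r y) l i) ^ 2) =
        be S.m (S.r y) i i / S.L y i * nn S.m τ (S.r y) i := by
      intro i
      rw [← Finset.mul_sum, (hA y).nnb i]
    have e7 : ∑ i, ∑ l, be S.m (S.r y) l l / S.L y l * (S.r y i * S.r y l *
        (al S.m τ (S.r y) i l + al S.m τ (S.r y) l i) ^ 2) = S.Sd τ y := by
      rw [Finset.sum_comm]
      unfold Sys.Sd
      refine Finset.sum_congr rfl fun l _ => ?_
      rw [← e6 l]
      refine Finset.sum_congr rfl fun i _ => ?_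
      ring
    have e8 : ∑ i, ∑ l, be S.m (S.r y) i i / S.L y i * (S.r y i * S.r y l *
        (al S.m τ (S.r y) i l + al S.m τ (S.r y) l i) ^ 2) = S.Sd τ y := by
      unfold Sys.Sd
      exact Finset.sum_congr rfl fun i _ => e6 i
    have e9 : ∑ i, ∑ l, 1 / 2 * (1 / 2 * (be S.m (S.r y) i i / S.L y i +
          be S.m (S.r y) l l / S.L y l) * (S.r y i * S.r y l *
        (al S.m τ (S.r y) i l + al S.m τ (S.r y) l i) ^ 2)) =
        1 / 4 * (∑ i, ∑ l, be S.m (S.r y) i i / S.L y i * (S.r y i * S.r y l *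
        (al S.m τ (S.r y) i l + al S.m τ (S.r y) l i) ^ 2)) +
        1 / 4 * (∑ i, ∑ l, be S.m (S.r y) l l / S.L y l * (S.r y i * S.r y l *
        (al S.m τ (S.r y) i l + al S.m τ (S.r y) l i) ^ 2)) := by
      simp_rw [Finset.mul_sum, ← Finset.sum_add_distrib]
      refine Finset.sum_congr rfl fun i _ => Finset.sum_congr rfl fun l _ => ?_
      ring
    rw [e9, e7, e8]
    ring
  have hspl : ∑ i, ∑ l, ww S y i l * (S.r y i * S.r y l) *
        (al S.m τ (S.r y) i i * al S.m τ (S.r y) l l + al S.m τ (S.r y) i l ^ 2 +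
          al S.m τ (S.r y) i l * al S.m τ (S.r y) l i) =
      (∑ i, ∑ l, ww S y i l * (S.r y i * S.r y l) *
      (al S.m τ (S.r y) i i * al S.m τ (S.r y) l l)) +
      ∑ i, ∑ l, ww S y i l * (S.r y i * S.r y l) *
      (al S.m τ (S.r y) i l ^ 2 + al S.m τ (S.r y) i l * al S.m τ (S.r y) l i) := by
    simp_rw [← Finset.sum_add_distrib]
    refine Finset.sum_congr rfl fun i _ => Finset.sum_congr rfl fun l _ => ?_
    ring
  -- (iii)
  have hiii : S.X1d τ y + 2 * S.δ * ∑ i, S.r y i * al S.m τ (S.r y) i i ^ 2 / S.L y i *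
      (Gm S.m y i i / S.L y i) ≤
      ∑ i, S.r y i * al S.m τ (S.r y) i i ^ 2 / S.L y i * (3 - 2 * (Gm S.m y i i / S.L y i) +
        2 * S.δ * (Gm S.m y i i / S.L y i)) := by
    unfold Sys.X1d
    rw [Finset.mul_sum, ← Finset.sum_add_distrib]
    refine Finset.sum_le_sum fun i _ => ?_
    have h1 : 0 ≤ S.r y i * al S.m τ (S.r y) i i ^ 2 / S.L y i :=
      div_nonneg (mul_nonneg (hL.rpos y i).le (sq_nonneg _)) (hL.Lpos y i).le
    nlinarith [mul_nonneg h1 (sub_nonneg.2 (hl i).2)]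
  have hfin : S.X1d τ y - S.δ * S.Sd τ y ≤ ∑ j, ∑ c, S.D j c (ph1 S τ j c) y := by
    rw [hD, hspl]
    have h1 := mul_le_mul_of_nonneg_left hi (by positivity : (0 : ℝ) ≤ 2 * S.δ)
    have h2 := mul_le_mul_of_nonneg_left hii (by positivity : (0 : ℝ) ≤ 2 * S.δ)
    linarith
  have hsub : S.δ * ∑ j, ∑ c, (S.D j c (ph1 S τ j c) y - 2 * (Yv S.m y j c * ph1 S τ j c y)) =
      S.δ * (∑ j, ∑ c, S.D j c (ph1 S τ j c) y) + 2 * S.Yd τ y := by
    simp_rw [Finset.sum_sub_distrib]
    rw [mul_sub, hYd]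
    ring
  rw [hsub]
  have h3 := mul_le_mul_of_nonneg_left hfin hδ.le
  nlinarith

/-- Row E1. -/
theorem e1_st (hWa : WaStatement) (hWs : WsStatement) (hWb : WbStatement) (hSl : SlStatement)
    (hSr : SrStatement) (hTm : TmStatement) (hTs : TsStatement) (hIn : InStatement)
    (hIb : IbStatement) : E1Statement := by
  intro n k S τ
  have hL := hSl n k S
  have hR := hSr n k S τ
  have hT := hTs n k S τ
  have hB : ∀ y, BFacts S.m (S.r y) := fun y => hWa n k S.m (S.r y) S.hm (hL.rpos y)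
  have hA : ∀ y, AFacts S.m τ (S.r y) := fun y => hWb n k S.m τ (S.r y) S.hm (hL.rpos y)
  obtain ⟨hadd, hmul, hconst, -, -, hsum⟩ := hTm k
  obtain ⟨hZ, hZ0⟩ := Zint hTm hIn hIb S τ hT (ph1 S τ) (ph1_tame hTm S τ hT)
  have tS : Tame (S.Sd τ) := by
    have h : Tame fun y => ∑ i, be S.m (S.r y) i i * (S.L y i)⁻¹ * nn S.m τ (S.r y) i :=
      hsum _ _ fun i => hmul _ _ (hmul _ _ (hT.tbe i i) (hT.tLi i)) (hT.tnn i)
    exact h
  have tX : Tame (S.X1d τ) := by
    have h : Tame fun y => ∑ i, S.r y i * (al S.m τ (S.r y) i i * al S.m τ (S.r y) i i) *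
        (S.L y i)⁻¹ :=
      hsum _ _ fun i => hmul _ _ (hmul _ _ (hT.tr i) (hmul _ _ (hT.tal i i) (hT.tal i i)))
        (hT.tLi i)
    have e : S.X1d τ = fun y => ∑ i, S.r y i * (al S.m τ (S.r y) i i * al S.m τ (S.r y) i i) *
        (S.L y i)⁻¹ := by
      funext y
      unfold Sys.X1d
      refine Finset.sum_congr rfl fun i _ => ?_
      rw [div_eq_mul_inv, pow_two]
    rw [e]; exact h
  have hG : ∀ i j, Tame fun y => Gm S.m y i j := fun i j =>
    hsum _ _ fun c => hmul _ _ (hT.tY i c) (hT.tY j c)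
  have tY : Tame fun y => S.Yd τ y := by
    have h : Tame fun y => -1 * (S.δ * ∑ i, S.r y i * al S.m τ (S.r y) i i *
      (∑ j, al S.m τ (S.r y) i j * S.r y j * Gm S.m y j i) * (S.L y i)⁻¹) :=
      hmul _ _ (hconst (-1)) (hmul _ _ (hconst S.δ) (hsum _ _ fun i =>
        hmul _ _ (hmul _ _ (hmul _ _ (hT.tr i) (hT.tal i i))
          (hsum _ _ fun j => hmul _ _ (hmul _ _ (hT.tal i j) (hT.tr j)) (hG j i))) (hT.tLi i)))
    have e : (fun y => S.Yd τ y) = fun y => -1 * (S.δ * ∑ i, S.r y i * al S.m τ (S.r y) i i *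
      (∑ j, al S.m τ (S.r y) i j * S.r y j * Gm S.m y j i) * (S.L y i)⁻¹) := by
      funext y
      unfold Sys.Yd
      rw [neg_one_mul]
      congr 2
    rw [e]; exact h
  have iX := hIn n k S _ tX.smooth.continuous tX.bd
  have iS := hIn n k S _ tS.smooth.continuous tS.bd
  have iY := hIn n k S _ tY.smooth.continuous tY.bd
  have t1 : Tame fun y => 2 * S.Yd τ y := hmul _ _ (hconst 2) tY
  have i1 := hIn n k S _ t1.smooth.continuous t1.bd
  have i2 : Integrable fun y => (-(S.δ * S.X1d τ y) + S.δ ^ 2 * S.Sd τ y) * S.rho y := by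
    have e : (fun y => (-(S.δ * S.X1d τ y) + S.δ ^ 2 * S.Sd τ y) * S.rho y) = fun y =>
        (-S.δ) * (S.X1d τ y * S.rho y) + S.δ ^ 2 * (S.Sd τ y * S.rho y) := by
      funext y; ring
    rw [e]
    exact (iX.const_mul _).add (iS.const_mul _)
  have hZ' : Integrable fun y => (S.δ * ∑ j, ∑ c, (S.D j c (ph1 S τ j c) y -
      2 * (Yv S.m y j c * ph1 S τ j c y))) * S.rho y := by
    simp_rw [mul_assoc]
    have := hZ.const_mul S.δ
    simpa only [mul_assoc] using this
  have hZ0' : ∫ y, (S.δ * ∑ j, ∑ c, (S.D j c (ph1 S τ j c) y -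
      2 * (Yv S.m y j c * ph1 S τ j c y))) * S.rho y = 0 := by
    have e : (fun y => (S.δ * ∑ j, ∑ c, (S.D j c (ph1 S τ j c) y -
      2 * (Yv S.m y j c * ph1 S τ j c y))) * S.rho y) = fun y =>
        S.δ * ((∑ j, ∑ c, (S.D j c (ph1 S τ j c) y -
      2 * (Yv S.m y j c * ph1 S τ j c y))) * S.rho y) := by
      funext y; ring
    rw [e, integral_const_mul, hZ0, mul_zero]
  have h := mono_Z S (fun y => 2 * S.Yd τ y)
    (fun y => -(S.δ * S.X1d τ y) + S.δ ^ 2 * S.Sd τ y) _
    hR.rhopos i1 i2 hZ' hZ0' (pt1 S τ hL hR hWs hB hA)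
  have e1 : ∫ y, 2 * S.Yd τ y * S.rho y = 2 * ∫ y, S.Yd τ y * S.rho y := by
    rw [← integral_const_mul]
    simp_rw [mul_assoc]
  have e2 : ∫ y, (-(S.δ * S.X1d τ y) + S.δ ^ 2 * S.Sd τ y) * S.rho y =
      -(S.δ * ∫ y, S.X1d τ y * S.rho y) + S.δ ^ 2 * ∫ y, S.Sd τ y * S.rho y := by
    have e : (fun y => (-(S.δ * S.X1d τ y) + S.δ ^ 2 * S.Sd τ y) * S.rho y) = fun y =>
        (-S.δ) * (S.X1d τ y * S.rho y) + S.δ ^ 2 * (S.Sd τ y * S.rho y) := by
      funext y; ring
    rw [e, integral_add (iX.const_mul _) (iS.const_mul _), integral_const_mul,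
      integral_const_mul]
    ring
  rw [← e1, ← e2]
  exact h

end Pool.Agent.Lib.MP_fa837f_gt.P2.H82
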