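import Pool.Agent.Lib.MP_fa837f_gt.P2.Iface

/-!
Project P2: common part of the rows E1 and E2 (rules for the derivatives `D`, integration by parts for
families).
-/

set_option autoImplicit false

open MeasureTheory Matrix Set Filter Topology

namespace Pool.Agent.Lib.MP_fa837f_gt.P2.H82

variable {n k : ℕ}

/-- Integration by parts for a family of tame functions. -/
theorem Zint (hTm : TmStatement) (hIn : InStatement) (hIb : IbStatement) (S : Sys n k)
    (τ : Fin n → ℝ) (hT : TFacts S τ) (φ : Fin n → Fin 3 → Pt k → ℝ) (ht : ∀ i c, Tame (φ i c)) :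
    (Integrable fun y => (∑ i, ∑ c, (S.D i c (φ i c) y -
      2 * (Yv S.m y i c * φ i c y))) * S.rho y) ∧
    ∫ y, (∑ i, ∑ c, (S.D i c (φ i c) y -
      2 * (Yv S.m y i c * φ i c y))) * S.rho y = 0 := by
  obtain ⟨-, hmul, hconst, -, -, -⟩ := hTm k
  have i1 : ∀ i c, Integrable fun y => S.D i c (φ i c) y * S.rho y := fun i c =>
    hIn n k S _ (hT.pD i c _ (ht i c)).2 (hT.pD i c _ (ht i c)).1
  have i2 : ∀ i c, Integrable fun y => (Yv S.m y i c * φ i c y) * S.rho y := fun i c => by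
    have := hmul _ _ (hT.tY i c) (ht i c)
    exact hIn n k S _ this.smooth.continuous this.bd
  have i3 : ∀ i c, Integrable fun y => (S.D i c (φ i c) y -
      2 * (Yv S.m y i c * φ i c y)) * S.rho y := fun i c => by
    have := (i1 i c).sub ((i2 i c).const_mul 2)
    refine this.congr (Filter.Eventually.of_forall fun y => ?_)
    simp only [Pi.sub_apply]
    ring
  have z : ∀ i c, ∫ y, (S.D i c (φ i c) y -
      2 * (Yv S.m y i c * φ i c y)) * S.rho y = 0 := fun i c => by
    have e : (fun y => (S.D i c (φ i c) y -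
        2 * (Yv S.m y i c * φ i c y)) * S.rho y) = fun y =>
        S.D i c (φ i c) y * S.rho y -
          2 * ((Yv S.m y i c * φ i c y) * S.rho y) := by
      funext y; ring
    rw [e, integral_sub (i1 i c) ((i2 i c).const_mul 2), integral_const_mul,
      hIb n k S i c _ (ht i c)]
    ring
  have e : (fun y => (∑ i, ∑ c, (S.D i c (φ i c) y -
      2 * (Yv S.m y i c * φ i c y))) * S.rho y) = fun y => ∑ i, ∑ c,
        (S.D i c (φ i c) y - 2 * (Yv S.m y i c * φ i c y)) * S.rho y := by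
    funext y
    rw [Finset.sum_mul]
    exact Finset.sum_congr rfl fun i _ => Finset.sum_mul _ _ _
  constructor
  · rw [e]
    exact integrable_finsetSum _ fun i _ => integrable_finsetSum _ fun c _ => i3 i c
  · rw [e, integral_finsetSum _ fun i _ => integrable_finsetSum _ fun c _ => i3 i c]
    refine Finset.sum_eq_zero fun i _ => ?_
    rw [integral_finsetSum _ fun c _ => i3 i c]
    exact Finset.sum_eq_zero fun c _ => z i c

section rules

variable (S : Sys n k)

theorem D_mul (i : Fin n) (c : Fin 3) (f g : Pt k → ℝ) (y : Pt k) (hf : DifferentiableAt ℝ f y)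
    (hg : DifferentiableAt ℝ g y) :
    S.D i c (fun z => f z * g z) y = f y * S.D i c g y + g y * S.D i c f y := by
  unfold Sys.D
  have h := (hf.hasFDerivAt.mul hg.hasFDerivAt).fderiv
  have h' : fderiv ℝ (fun z => f z * g z) y = f y • fderiv ℝ g y + g y • fderiv ℝ f y := h
  rw [h']
  simp only [_root_.add_apply, _root_.smul_apply, smul_eq_mul]

theorem D_sum (i : Fin n) (c : Fin 3) {ι : Type} [Fintype ι] (f : ι → Pt k → ℝ) (y : Pt k)
    (hf : ∀ a, DifferentiableAt ℝ (f a) y) :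
    S.D i c (fun z => ∑ a, f a z) y = ∑ a, S.D i c (f a) y := by
  unfold Sys.D
  rw [fderiv_fun_sum (fun a _ => hf a)]
  rw [_root_.sum_apply]

theorem D_Y (hL : LFacts S) {τ : Fin n → ℝ} (hR : RFacts S τ) (i : Fin n) (c : Fin 3) (l : Fin n)
    (y : Pt k) : S.D i c (fun z => Yv S.m z l c) y = be S.m (S.r y) l i := by
  unfold Sys.D
  rw [hL.dY, hR.Yfr, if_pos rfl]

theorem D_L (hL : LFacts S) {τ : Fin n → ℝ} (hR : RFacts S τ) (i : Fin n) (c : Fin 3) (l : Fin n)
    (y : Pt k) : S.D i c (fun z => S.L z l) y = 2 * (be S.m (S.r y) l i * Yv S.m y l c) := by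
  unfold Sys.D
  rw [hL.dL, Finset.sum_eq_single c]
  · rw [hR.Yfr, if_pos rfl]; ring
  · intro d _ hd
    rw [hR.Yfr, if_neg hd, mul_zero]
  · intro h
    exact absurd (Finset.mem_univ _) h

theorem diffL (hL : LFacts S) (l : Fin n) (y : Pt k) : DifferentiableAt ℝ (fun z => S.L z l) y :=
  ((hL.sL l).differentiable (by simp)).differentiableAt

theorem D_Linv (hL : LFacts S) {τ : Fin n → ℝ} (hR : RFacts S τ) (i : Fin n) (c : Fin 3) (l : Fin n)
    (y : Pt k) : S.D i c (fun z => (S.L z l)⁻¹) y =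
      -(2 * (be S.m (S.r y) l i * Yv S.m y l c)) / S.L y l ^ 2 := by
  have h1 := D_L S hL hR i c l y
  have h2 : HasFDerivAt (fun z => (S.L z l)⁻¹)
      (-(S.L y l ^ 2)⁻¹ • fderiv ℝ (fun z => S.L z l) y) y :=
    (hasDerivAt_inv (hL.Lpos y l).ne').comp_hasFDerivAt y (diffL S hL l y).hasFDerivAt
  unfold Sys.D at h1 ⊢
  rw [h2.fderiv, _root_.smul_apply, h1, smul_eq_mul]
  rw [div_eq_mul_inv]
  ring

theorem D_r (hL : LFacts S) {τ : Fin n → ℝ} (hR : RFacts S τ) (i : Fin n) (c : Fin 3) (l : Fin n)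
    (y : Pt k) : S.D i c (fun z => S.r z l) y =
      S.r y l * (2 * S.δ / S.L y l * (be S.m (S.r y) l i * Yv S.m y l c)) := by
  unfold Sys.D
  rw [hL.dr, hR.dlfr]

theorem D_al {τ : Fin n → ℝ} (hR : RFacts S τ) (i : Fin n) (c : Fin 3) (p q : Fin n)
    (y : Pt k) : S.D i c (fun z => al S.m τ (S.r z) p q) y =
      -∑ l, (al S.m τ (S.r y) p l * be S.m (S.r y) l q + be S.m (S.r y) p l * al S.m τ (S.r y) l q) *
        (S.r y l * (2 * S.δ / S.L y l * (be S.m (S.r y) l i * Yv S.m y l c))) := by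
  unfold Sys.D
  rw [hR.dal]
  congr 1
  refine Finset.sum_congr rfl fun l _ => ?_
  rw [hR.dlfr]

theorem D_nn {τ : Fin n → ℝ} (hR : RFacts S τ) (i : Fin n) (c : Fin 3) (p : Fin n)
    (y : Pt k) : S.D i c (fun z => nn S.m τ (S.r z) p) y =
      ∑ l, nd S.m τ (S.r y) p l * (2 * S.δ / S.L y l * (be S.m (S.r y) l i * Yv S.m y l c)) := by
  unfold Sys.D
  rw [hR.dnn]
  refine Finset.sum_congr rfl fun l _ => ?_
  rw [hR.dlfr]

end rules

/-- From a pointwise inequality to an inequality of integrals, modulo a function with integral `0`. -/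
theorem mono_Z (S : Sys n k) (f g Z : Pt k → ℝ) (hρ : ∀ y, 0 < S.rho y)
    (hf : Integrable fun y => f y * S.rho y) (hg : Integrable fun y => g y * S.rho y)
    (hZ : Integrable fun y => Z y * S.rho y) (hZ0 : ∫ y, Z y * S.rho y = 0)
    (h : ∀ y, f y ≤ g y + Z y) : ∫ y, f y * S.rho y ≤ ∫ y, g y * S.rho y := by
  have h1 : ∫ y, f y * S.rho y ≤ ∫ y, (g y * S.rho y + Z y * S.rho y) := by
    refine integral_mono hf (hg.add hZ) fun y => ?_
    have := mul_le_mul_of_nonneg_right (h y) (hρ y).le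
    show f y * S.rho y ≤ g y * S.rho y + Z y * S.rho y
    linarith [add_mul (g y) (Z y) (S.rho y)]
  rw [integral_add hg hZ, hZ0, add_zero] at h1
  exact h1

end Pool.Agent.Lib.MP_fa837f_gt.P2.H82
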