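import Pool.Agent.Lib.MP_fa837f_gt.P2.H82.Com

/-!
Project P2, row E2.
-/

set_option autoImplicit false

open MeasureTheory Matrix Set Filter Topology

namespace Pool.Agent.Lib.MP_fa837f_gt.P2.H82

variable {n k : ℕ}

/-- The functions to which the rule is applied. -/
noncomputable def ph2 (S : Sys n k) (τ : Fin n → ℝ) (i : Fin n) (c : Fin 3) (y : Pt k) : ℝ :=
  nn S.m τ (S.r y) i * (Yv S.m y i c * (S.L y i)⁻¹)

theorem ph2_tame (hTm : TmStatement) (S : Sys n k) (τ : Fin n → ℝ) (hT : TFacts S τ)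
    (i : Fin n) (c : Fin 3) : Tame (ph2 S τ i c) := by
  obtain ⟨-, hmul, -, -, -, -⟩ := hTm k
  exact hmul _ _ (hT.tnn i) (hmul _ _ (hT.tY i c) (hT.tLi i))

/-- `w i l = β i l ⟨y_i, y_l⟩ / (L_i L_l)`. -/
noncomputable def ww (S : Sys n k) (y : Pt k) (i l : Fin n) : ℝ :=
  be S.m (S.r y) i l * Gm S.m y i l / (S.L y i * S.L y l)

theorem D_ph2 (S : Sys n k) (τ : Fin n → ℝ) (hL : LFacts S) (hR : RFacts S τ) (i : Fin n)
    (c : Fin 3) (y : Pt k) :
    S.D i c (ph2 S τ i c) y =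
      nn S.m τ (S.r y) i * (Yv S.m y i c * (-(2 * (be S.m (S.r y) i i * Yv S.m y i c)) / S.L y i ^ 2)
        + (S.L y i)⁻¹ * be S.m (S.r y) i i) +
      (Yv S.m y i c * (S.L y i)⁻¹) * ∑ l, nd S.m τ (S.r y) i l *
        (2 * S.δ / S.L y l * (be S.m (S.r y) l i * Yv S.m y l c)) := by
  have dY : DifferentiableAt ℝ (fun z => Yv S.m z i c) y :=
    ((hL.sY i c).differentiable (by simp)).differentiableAt
  have dLi : DifferentiableAt ℝ (fun z => (S.L z i)⁻¹) y :=
    (diffL S hL i y).inv (hL.Lpos y i).ne'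
  have dn : DifferentiableAt ℝ (fun z => nn S.m τ (S.r z) i) y :=
    ((hR.snn i).differentiable (by simp)).differentiableAt
  have h1 := D_mul S i c (fun z => nn S.m τ (S.r z) i) (fun z => Yv S.m z i c * (S.L z i)⁻¹) y dn
    (dY.mul dLi)
  have h2 := D_mul S i c (fun z => Yv S.m z i c) (fun z => (S.L z i)⁻¹) y dY dLi
  have h3 : S.D i c (ph2 S τ i c) y = _ := h1
  rw [h3, h2, D_Linv S hL hR, D_Y S hL hR, D_nn S hR]

/-- The sum over `c`. -/
theorem Z2_eq (S : Sys n k) (τ : Fin n → ℝ) (hL : LFacts S) (hR : RFacts S τ)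
    (hB : ∀ y, BFacts S.m (S.r y)) (y : Pt k) :
    ∑ i, ∑ c, (S.D i c (ph2 S τ i c) y - 2 * (Yv S.m y i c * ph2 S τ i c y)) =
      ∑ i, (be S.m (S.r y) i i / S.L y i * nn S.m τ (S.r y) i * (3 - 2 * (Gm S.m y i i / S.L y i))
        - 2 * (nn S.m τ (S.r y) i * (Gm S.m y i i / S.L y i))) +
      2 * S.δ * ∑ i, ∑ l, ww S y i l * nd S.m τ (S.r y) i l := by
  rw [Finset.mul_sum, ← Finset.sum_add_distrib]
  refine Finset.sum_congr rfl fun i _ => ?_
  have hLp := (hL.Lpos y i).ne'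
  have e1 : ∑ c, Yv S.m y i c * Yv S.m y i c = Gm S.m y i i := rfl
  have e2 : ∀ c, (Yv S.m y i c * (S.L y i)⁻¹) * ∑ l, nd S.m τ (S.r y) i l *
        (2 * S.δ / S.L y l * (be S.m (S.r y) l i * Yv S.m y l c)) =
      ∑ l, 2 * S.δ * (be S.m (S.r y) i l / (S.L y i * S.L y l) * nd S.m τ (S.r y) i l *
        (Yv S.m y i c * Yv S.m y l c)) := by
    intro c
    rw [Finset.mul_sum]
    refine Finset.sum_congr rfl fun l _ => ?_
    have hLl := (hL.Lpos y l).ne'
    rw [(hB y).symm l i]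
    field_simp
  have e3 : ∀ c, S.D i c (ph2 S τ i c) y - 2 * (Yv S.m y i c * ph2 S τ i c y) =
      (nn S.m τ (S.r y) i * (-(2 * be S.m (S.r y) i i) / S.L y i ^ 2) -
        2 * (nn S.m τ (S.r y) i / S.L y i)) * (Yv S.m y i c * Yv S.m y i c) +
      nn S.m τ (S.r y) i * ((S.L y i)⁻¹ * be S.m (S.r y) i i) +
      ∑ l, 2 * S.δ * (be S.m (S.r y) i l / (S.L y i * S.L y l) * nd S.m τ (S.r y) i l *
        (Yv S.m y i c * Yv S.m y l c)) := by
    intro c
    rw [D_ph2 S τ hL hR, e2 c]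
    unfold ph2
    field_simp
    ring
  simp_rw [e3]
  rw [Finset.sum_add_distrib, Finset.sum_add_distrib, ← Finset.mul_sum, e1, Finset.sum_comm]
  have e4 : ∑ l, ∑ c, 2 * S.δ * (be S.m (S.r y) i l / (S.L y i * S.L y l) * nd S.m τ (S.r y) i l *
        (Yv S.m y i c * Yv S.m y l c)) = 2 * S.δ * ∑ l, ww S y i l * nd S.m τ (S.r y) i l := by
    rw [Finset.mul_sum]
    refine Finset.sum_congr rfl fun l _ => ?_
    unfold ww Gm
    have e5 : ∀ c, 2 * S.δ * (be S.m (S.r y) i l / (S.L y i * S.L y l) * nd S.m τ (S.r y) i l *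
        (Yv S.m y i c * Yv S.m y l c)) = 2 * S.δ * (be S.m (S.r y) i l / (S.L y i * S.L y l) *
          nd S.m τ (S.r y) i l) * (Yv S.m y i c * Yv S.m y l c) := by
      intro c; ring
    simp_rw [e5]
    rw [← Finset.mul_sum]
    ring
  rw [e4]
  simp only [Finset.sum_const, Finset.card_univ, Fintype.card_fin, nsmul_eq_mul]
  field_simp
  push_cast
  ring

/-- The lower bound for the last sum. -/
theorem ww_nd (S : Sys n k) (τ : Fin n → ℝ) (hL : LFacts S) (hWs : WsStatement)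
    (hB : ∀ y, BFacts S.m (S.r y)) (y : Pt k) :
    -∑ i, ww S y i i * nn S.m τ (S.r y) i ≤ ∑ i, ∑ l, ww S y i l * nd S.m τ (S.r y) i l := by
  have wsym : ∀ i l, ww S y i l = ww S y l i := by
    intro i l
    unfold ww
    rw [(hB y).symm i l, mul_comm (S.L y i) (S.L y l)]
    congr 2
    unfold Gm
    exact Finset.sum_congr rfl fun c _ => mul_comm _ _
  -- the three parts
  have h1 : ∑ i, ∑ l, ww S y i l * (if i = l then nn S.m τ (S.r y) i else 0) =
      ∑ i, ww S y i i * nn S.m τ (S.r y) i := by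
    refine Finset.sum_congr rfl fun i _ => ?_
    rw [Finset.sum_eq_single i]
    · rw [if_pos rfl]
    · intro l _ hl
      rw [if_neg (fun h => hl h.symm), mul_zero]
    · intro h
      exact absurd (Finset.mem_univ _) h
  have h2 : ∑ i, ∑ l, ww S y i l * (S.r y i * S.r y l *
      (al S.m τ (S.r y) l i ^ 2 - al S.m τ (S.r y) i l ^ 2)) = 0 := by
    have : ∑ i, ∑ l, ww S y i l * (S.r y i * S.r y l *
      (al S.m τ (S.r y) l i ^ 2 - al S.m τ (S.r y) i l ^ 2)) =
      -∑ i, ∑ l, ww S y i l * (S.r y i * S.r y l *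
      (al S.m τ (S.r y) l i ^ 2 - al S.m τ (S.r y) i l ^ 2)) := by
      conv_lhs => rw [Finset.sum_comm]
      rw [← Finset.sum_neg_distrib]
      refine Finset.sum_congr rfl fun i _ => ?_
      rw [← Finset.sum_neg_distrib]
      refine Finset.sum_congr rfl fun l _ => ?_
      rw [wsym l i]
      ring
    linarith
  -- the Schur type inequality with general coefficients
  have h3 : ∀ a : Fin n → ℝ, ∑ i, ∑ l, ww S y i l * (S.r y i * S.r y l * be S.m (S.r y) i l *
      (a i * a l)) ≤ ∑ i, ww S y i i * (S.r y i * a i ^ 2) := by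
    intro a
    have hw := (hWs n k S.m (S.r y) S.hm (hL.rpos y) (Fin 3)
      (fun i c => S.r y i / S.L y i * a i * Yv S.m y i c)).2.2.2
    have dp : ∀ i l, (fun c => S.r y i / S.L y i * a i * Yv S.m y i c) ⬝ᵥ
        (fun c => S.r y l / S.L y l * a l * Yv S.m y l c) =
        S.r y i / S.L y i * a i * (S.r y l / S.L y l * a l) * Gm S.m y i l := by
      intro i l
      unfold Gm
      simp only [dotProduct]
      rw [Finset.mul_sum]
      refine Finset.sum_congr rfl fun c _ => ?_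
      ring
    simp only [dp] at hw
    calc _ = ∑ i, ∑ l, be S.m (S.r y) i l ^ 2 *
          (S.r y i / S.L y i * a i * (S.r y l / S.L y l * a l) * Gm S.m y i l) := by
          refine Finset.sum_congr rfl fun i _ => Finset.sum_congr rfl fun l _ => ?_
          have hLi := (hL.Lpos y i).ne'
          have hLl := (hL.Lpos y l).ne'
          unfold ww
          field_simp
      _ ≤ _ := hw
      _ = _ := by
          refine Finset.sum_congr rfl fun i _ => ?_
          have hLi := (hL.Lpos y i).ne'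
          have hri := (hL.rpos y i).ne'
          unfold ww
          field_simp
  have h4 : ∑ i, ∑ l, ww S y i l * (S.r y i * S.r y l * be S.m (S.r y) i l *
        ∑ j, S.r y j * (al S.m τ (S.r y) i j * al S.m τ (S.r y) l j +
          al S.m τ (S.r y) j i * al S.m τ (S.r y) j l)) ≤
      ∑ i, ww S y i i * nn S.m τ (S.r y) i := by
    have e1 : ∑ i, ∑ l, ww S y i l * (S.r y i * S.r y l * be S.m (S.r y) i l *
        ∑ j, S.r y j * (al S.m τ (S.r y) i j * al S.m τ (S.r y) l j +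
          al S.m τ (S.r y) j i * al S.m τ (S.r y) j l)) =
        ∑ j, S.r y j * ((∑ i, ∑ l, ww S y i l * (S.r y i * S.r y l * be S.m (S.r y) i l *
          (al S.m τ (S.r y) i j * al S.m τ (S.r y) l j))) +
          ∑ i, ∑ l, ww S y i l * (S.r y i * S.r y l * be S.m (S.r y) i l *
          (al S.m τ (S.r y) j i * al S.m τ (S.r y) j l))) := by
      have e2 : ∀ i l, ww S y i l * (S.r y i * S.r y l * be S.m (S.r y) i l *
        ∑ j, S.r y j * (al S.m τ (S.r y) i j * al S.m τ (S.r y) l j +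
          al S.m τ (S.r y) j i * al S.m τ (S.r y) j l)) =
          ∑ j, (S.r y j * (ww S y i l * (S.r y i * S.r y l * be S.m (S.r y) i l *
          (al S.m τ (S.r y) i j * al S.m τ (S.r y) l j))) +
          S.r y j * (ww S y i l * (S.r y i * S.r y l * be S.m (S.r y) i l *
          (al S.m τ (S.r y) j i * al S.m τ (S.r y) j l)))) := by
        intro i l
        rw [Finset.mul_sum, Finset.mul_sum]
        refine Finset.sum_congr rfl fun j _ => ?_
        ring
      simp_rw [e2]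
      have e3 : ∀ j, S.r y j * ((∑ i, ∑ l, ww S y i l * (S.r y i * S.r y l * be S.m (S.r y) i l *
          (al S.m τ (S.r y) i j * al S.m τ (S.r y) l j))) +
          ∑ i, ∑ l, ww S y i l * (S.r y i * S.r y l * be S.m (S.r y) i l *
          (al S.m τ (S.r y) j i * al S.m τ (S.r y) j l))) =
          ∑ i, ∑ l, (S.r y j * (ww S y i l * (S.r y i * S.r y l * be S.m (S.r y) i l *
          (al S.m τ (S.r y) i j * al S.m τ (S.r y) l j))) +
          S.r y j * (ww S y i l * (S.r y i * S.r y l * be S.m (S.r y) i l *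
          (al S.m τ (S.r y) j i * al S.m τ (S.r y) j l)))) := by
        intro j
        simp_rw [Finset.sum_add_distrib]
        simp_rw [← Finset.mul_sum]
        ring
      simp_rw [e3]
      have e4 : ∀ i, ∑ l, ∑ j, (S.r y j * (ww S y i l * (S.r y i * S.r y l * be S.m (S.r y) i l *
          (al S.m τ (S.r y) i j * al S.m τ (S.r y) l j))) +
          S.r y j * (ww S y i l * (S.r y i * S.r y l * be S.m (S.r y) i l *
          (al S.m τ (S.r y) j i * al S.m τ (S.r y) j l)))) =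
          ∑ j, ∑ l, (S.r y j * (ww S y i l * (S.r y i * S.r y l * be S.m (S.r y) i l *
          (al S.m τ (S.r y) i j * al S.m τ (S.r y) l j))) +
          S.r y j * (ww S y i l * (S.r y i * S.r y l * be S.m (S.r y) i l *
          (al S.m τ (S.r y) j i * al S.m τ (S.r y) j l)))) := fun i => Finset.sum_comm
      rw [Finset.sum_congr rfl fun i _ => e4 i, Finset.sum_comm]
    rw [e1]
    have e5 : ∑ i, ww S y i i * nn S.m τ (S.r y) i =
        ∑ j, S.r y j * ((∑ i, ww S y i i * (S.r y i * al S.m τ (S.r y) i j ^ 2)) +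
          ∑ i, ww S y i i * (S.r y i * al S.m τ (S.r y) j i ^ 2)) := by
      unfold nn
      simp_rw [Finset.mul_sum]
      rw [Finset.sum_comm]
      refine Finset.sum_congr rfl fun j _ => ?_
      rw [← Finset.sum_add_distrib, Finset.mul_sum]
      refine Finset.sum_congr rfl fun i _ => ?_
      ring
    rw [e5]
    refine Finset.sum_le_sum fun j _ => mul_le_mul_of_nonneg_left ?_ (hL.rpos y j).le
    exact add_le_add (h3 fun i => al S.m τ (S.r y) i j) (h3 fun i => al S.m τ (S.r y) j i)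
  have h5 : ∑ i, ∑ l, ww S y i l * nd S.m τ (S.r y) i l =
      (∑ i, ∑ l, ww S y i l * (if i = l then nn S.m τ (S.r y) i else 0)) +
      (∑ i, ∑ l, ww S y i l * (S.r y i * S.r y l *
      (al S.m τ (S.r y) l i ^ 2 - al S.m τ (S.r y) i l ^ 2))) -
      2 * ∑ i, ∑ l, ww S y i l * (S.r y i * S.r y l * be S.m (S.r y) i l *
        ∑ j, S.r y j * (al S.m τ (S.r y) i j * al S.m τ (S.r y) l j +
          al S.m τ (S.r y) j i * al S.m τ (S.r y) j l)) := by
    rw [Finset.mul_sum, ← Finset.sum_add_distrib, ← Finset.sum_sub_distrib]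
    refine Finset.sum_congr rfl fun i _ => ?_
    rw [Finset.mul_sum, ← Finset.sum_add_distrib, ← Finset.sum_sub_distrib]
    refine Finset.sum_congr rfl fun l _ => ?_
    unfold nd
    ring
  rw [h5, h1, h2]
  linarith

/-- The pointwise inequality. -/
theorem pt2 (S : Sys n k) (τ : Fin n → ℝ) (hL : LFacts S) (hR : RFacts S τ) (hWs : WsStatement)
    (hB : ∀ y, BFacts S.m (S.r y)) (hA : ∀ y, AFacts S.m τ (S.r y)) (y : Pt k) :
    (1 - 2 * S.δ) * S.Sd τ y ≤ 4 * tt S.m τ (S.r y) +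
      ∑ i, ∑ c, (S.D i c (ph2 S τ i c) y - 2 * (Yv S.m y i c * ph2 S τ i c y)) := by
  rw [Z2_eq S τ hL hR hB y]
  have h1 := ww_nd S τ hL hWs hB y
  have hd := S.hδ0
  have hl : ∀ i, 0 ≤ Gm S.m y i i / S.L y i ∧ Gm S.m y i i / S.L y i ≤ 1 := by
    intro i
    have hLp := hL.Lpos y i
    have h0 : 0 ≤ Gm S.m y i i := by
      unfold Gm
      exact Finset.sum_nonneg fun c _ => mul_self_nonneg _
    refine ⟨div_nonneg h0 hLp.le, ?_⟩
    rw [div_le_one hLp]
    have := S.he i
    unfold Sys.L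
    linarith
  have h2 : ∑ i, ww S y i i * nn S.m τ (S.r y) i ≤ S.Sd τ y := by
    unfold Sys.Sd
    refine Finset.sum_le_sum fun i _ => mul_le_mul_of_nonneg_right ?_ ((hA y).nn0 i)
    have e : ww S y i i = be S.m (S.r y) i i / S.L y i * (Gm S.m y i i / S.L y i) := by
      unfold ww
      have hLp := (hL.Lpos y i).ne'
      field_simp
    rw [e]
    have h3 : 0 ≤ be S.m (S.r y) i i / S.L y i := div_nonneg ((hB y).nonneg i) (hL.Lpos y i).le
    calc _ ≤ be S.m (S.r y) i i / S.L y i * 1 := mul_le_mul_of_nonneg_left (hl i).2 h3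
      _ = _ := mul_one _
  have h3 : S.Sd τ y - 4 * tt S.m τ (S.r y) ≤
      ∑ i, (be S.m (S.r y) i i / S.L y i * nn S.m τ (S.r y) i * (3 - 2 * (Gm S.m y i i / S.L y i))
        - 2 * (nn S.m τ (S.r y) i * (Gm S.m y i i / S.L y i))) := by
    have e : 4 * tt S.m τ (S.r y) = ∑ i, 2 * nn S.m τ (S.r y) i := by
      rw [← Finset.mul_sum, (hA y).nntt]
      ring
    rw [e]
    unfold Sys.Sd
    rw [← Finset.sum_sub_distrib]
    refine Finset.sum_le_sum fun i _ => ?_
    have h3 : 0 ≤ be S.m (S.r y) i i / S.L y i := div_nonneg ((hB y).nonneg i) (hL.Lpos y i).le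
    have h4 := (hA y).nn0 i
    have h5 := mul_nonneg h3 h4
    have h6 := (hl i).2
    nlinarith [mul_nonneg h5 (sub_nonneg.2 h6), mul_nonneg h4 (sub_nonneg.2 h6)]
  have h4 : -(2 * S.δ * S.Sd τ y) ≤ 2 * S.δ * ∑ i, ∑ l, ww S y i l * nd S.m τ (S.r y) i l := by
    have h5 : -S.Sd τ y ≤ ∑ i, ∑ l, ww S y i l * nd S.m τ (S.r y) i l := by linarith
    have := mul_le_mul_of_nonneg_left h5 (by positivity : (0 : ℝ) ≤ 2 * S.δ)
    linarith
  linarith

/-- Row E2. -/
theorem e2_st (hWa : WaStatement) (hWs : WsStatement) (hWb : WbStatement) (hSl : SlStatement)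
    (hSr : SrStatement) (hTm : TmStatement) (hTs : TsStatement) (hIn : InStatement)
    (hIb : IbStatement) : E2Statement := by
  intro n k S τ
  have hL := hSl n k S
  have hR := hSr n k S τ
  have hT := hTs n k S τ
  have hB : ∀ y, BFacts S.m (S.r y) := fun y => hWa n k S.m (S.r y) S.hm (hL.rpos y)
  have hA : ∀ y, AFacts S.m τ (S.r y) := fun y => hWb n k S.m τ (S.r y) S.hm (hL.rpos y)
  obtain ⟨hadd, hmul, hconst, -, -, hsum⟩ := hTm k
  obtain ⟨hZ, hZ0⟩ := Zint hTm hIn hIb S τ hT (ph2 S τ) (ph2_tame hTm S τ hT)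
  have tS : Tame (S.Sd τ) := by
    have h : Tame fun y => ∑ i, be S.m (S.r y) i i * (S.L y i)⁻¹ * nn S.m τ (S.r y) i :=
      hsum _ _ fun i => hmul _ _ (hmul _ _ (hT.tbe i i) (hT.tLi i)) (hT.tnn i)
    exact h
  have tt' : Tame fun y => tt S.m τ (S.r y) :=
    hsum _ _ fun i => hmul _ _ (hmul _ _ (hconst (τ i)) (hT.tr i)) (hT.tal i i)
  have t1 : Tame fun y => (1 - 2 * S.δ) * S.Sd τ y := hmul _ _ (hconst (1 - 2 * S.δ)) tS
  have t2 : Tame fun y => 4 * tt S.m τ (S.r y) := hmul _ _ (hconst 4) tt'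
  have h := mono_Z S (fun y => (1 - 2 * S.δ) * S.Sd τ y) (fun y => 4 * tt S.m τ (S.r y)) _
    hR.rhopos (hIn n k S _ t1.smooth.continuous t1.bd) (hIn n k S _ t2.smooth.continuous t2.bd)
    hZ hZ0 (pt2 S τ hL hR hWs hB hA)
  rw [← integral_const_mul, ← integral_const_mul]
  simp_rw [mul_assoc] at h ⊢
  exact h

end Pool.Agent.Lib.MP_fa837f_gt.P2.H82
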